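import Pool.Graph.R_seed8.H95R2.BG.CertDefs

/-! H529/F: kernel-friendly weights (no Mathlib). -/

namespace Pool.Agent.H529.F

open Pool.Agent.H95R2.BG.Cert (look)

/-- positive part of the weight of the slot `n` with the penalty `bs * pb`, in units `2^-20`; `TM` is the packed table of
the multipliers (unit `1/1024`, `wm` bits per entry, `GB` entries); with `k = BI - (n / bs + pb)` and `M = look TM wm k / 1024` this
is `floor (2^20 * (1 - 1 / (1 + 4 / (2 + (n + K) / N1) * M)))` -/
noncomputable def wpos (TM wm bs BI GB N1 K pb n : Nat) : Nat :=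
  cond (Nat.ble (Nat.add (Nat.div n bs) pb) BI)
    (cond (Nat.ble (Nat.add (Nat.add (Nat.div n bs) pb) GB) BI) 1048576
      (Nat.div (Nat.mul 4194304 (Nat.mul N1 (look TM wm (Nat.sub BI (Nat.add (Nat.div n bs) pb)))))
        (Nat.add (Nat.mul 1024 (Nat.add (Nat.mul 2 N1) (Nat.add n K)))
          (Nat.mul 4 (Nat.mul N1 (look TM wm (Nat.sub BI (Nat.add (Nat.div n bs) pb))))))))
    0

/-- negative part: with `k = n / bs + pb - BI - 1` this is `floor (2^20 * 4 * M / (2 - (n + K) / N1)) + 1` -/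
noncomputable def wneg (TM wm bs BI N1 K pb n : Nat) : Nat :=
  cond (Nat.ble (Nat.add (Nat.div n bs) pb) BI) 0
    (Nat.add (Nat.div (Nat.mul 4194304 (Nat.mul N1 (look TM wm (Nat.sub (Nat.sub (Nat.add (Nat.div n bs) pb) BI) 1))))
      (Nat.mul 1024 (Nat.sub (Nat.mul 2 N1) (Nat.add n K)))) 1)

/-- difference of the weights for the penalties `bs * p1 ≤ bs * p2` -/
noncomputable def wdif (TM wm bs BI GB N1 K p1 p2 n : Nat) : Nat :=
  cond (Nat.ble (Nat.add (Nat.add (Nat.div n bs) p2) GB) BI) 0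
    (Nat.sub (Nat.add (wpos TM wm bs BI GB N1 K p1 n) (wneg TM wm bs BI N1 K p2 n))
      (Nat.add (wpos TM wm bs BI GB N1 K p2 n) (wneg TM wm bs BI N1 K p1 n)))

/-- tilted weight: for `c < X` the factor `A[c mod 64] * B[c div 64] / 2^44`, rounded up -/
noncomputable def vwq (g : Nat → Nat) (A B X c : Nat) : Nat :=
  cond (Nat.ble (Nat.add c 1) X)
    (Nat.add (Nat.shiftRight (Nat.mul (Nat.mul (g c) (g c))
      (Nat.mul (look A 24 (Nat.mod c 64)) (look B 24 (Nat.div c 64)))) 44) 1)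
    (Nat.mul (g c) (g c))

end Pool.Agent.H529.F
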