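import Mathlib
import Pool.Agent.H529.D.GDefs
import Pool.Agent.H529.F.WDefs

/-!
# The certificate for `DHL[44,2]`: weights, tilts, levels, coverage, assembly (helper529)
-/

set_option autoImplicit false

open Finset Filter

namespace Pool.Agent.H529.F

open Pool.Agent.H95R2.BG Pool.Agent.Y826.Z Pool.Agent.H529.C Pool.Agent.H529.D
open Pool.Agent.H95R2.BG.Cert (pk cf pkS nrm G1 G2 look)

/-! ### Weights (task FW) -/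

noncomputable def muT (TM wm GB : ℕ) (j : Fin GB) : ℝ :=
  ((look TM wm j : ℝ) - (if (j : ℕ) = 0 then 0 else (look TM wm (j - 1) : ℝ))) / 1024

noncomputable def Wt (TM wm bs BI GB N1 K pb n : ℕ) : ℝ :=
  ((wpos TM wm bs BI GB N1 K pb n : ℝ) - wneg TM wm bs BI N1 K pb n) / 1048576

/-- task FW: the conditions on the weights. With `n = bs * nb + j`, `j < bs`: if `nb + pb ≤ BI` then
`L - (n + K + bs * pb) = bs * (BI - nb - pb) + (bs - 1 - j)`, otherwise `n + K + bs * pb - L = bs * (nb + pb - BI - 1) + j + 1`. -/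
def S_W : Prop := ∀ (TM wm bs BI GB N1 K NN L pm : ℕ), 0 < bs → 0 < N1 → L + 1 = K + (BI + 1) * bs →
    (∀ k, k + 1 < GB → look TM wm k ≤ look TM wm (k + 1)) → NN + K ≤ 2 * N1 → NN + K + bs * pm ≤ L + GB * bs + 1 →
    (∀ j, 0 ≤ muT TM wm GB j) ∧
    (∀ pb, pb ≤ pm → ∀ n, n < NN → n + K + bs * pb + GB * bs ≤ L → Wt TM wm bs BI GB N1 K pb n ≤ 1) ∧
    (∀ pb, pb ≤ pm → ∀ n, n < NN → L < n + K + bs * pb + GB * bs → n + K + bs * pb ≤ L →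
      Wt TM wm bs BI GB N1 K pb n ≤ 1 - 1 / (1 + 4 / (2 + ((n + K : ℕ) : ℝ) / N1) *
        ∑ j : Fin GB, if bs * (j : ℕ) ≤ L - (n + K + bs * pb) then muT TM wm GB j else 0)) ∧
    (∀ pb, pb ≤ pm → ∀ n, n < NN → L < n + K + bs * pb →
      Wt TM wm bs BI GB N1 K pb n ≤ - (4 * (∑ j : Fin GB, if bs * (j : ℕ) < n + K + bs * pb - L then muT TM wm GB j else 0) /
        (2 - ((n + K : ℕ) : ℝ) / N1))) ∧
    (∀ p1 p2, p1 ≤ p2 → p2 ≤ pm → ∀ n, n < NN →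
      Wt TM wm bs BI GB N1 K p1 n - Wt TM wm bs BI GB N1 K p2 n ≤ (wdif TM wm bs BI GB N1 K p1 p2 n : ℝ) / 1048576 ∧
      Wt TM wm bs BI GB N1 K p2 n ≤ Wt TM wm bs BI GB N1 K p1 n) ∧
    (∀ Mm, (∀ k, k < GB → look TM wm k ≤ Mm) → ∀ pb, pb ≤ pm → ∀ n, n < NN → wpos TM wm bs BI GB N1 K pb n ≤ 1048576 ∧
      wneg TM wm bs BI N1 K pb n ≤ 4194304 * (N1 * Mm) / (1024 * (2 * N1 + 1 - NN - K)) + 1)

/-! ### Tilts (task FT) -/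

/-- task FT (compare `part2`, `part3` in `Y68/ZC/KD.lean`) -/
def S_T : Prop := ∀ (g : ℕ → ℕ) (A B X nn dd : ℕ), 0 < nn → nn ≤ dd →
    (∀ i, i < 64 → 4194304 * nn ^ (i + 1) ≤ look A 24 i * dd ^ (i + 1)) →
    (∀ j, 64 * j < X → 4194304 * nn ^ (64 * j) ≤ look B 24 j * dd ^ (64 * j)) →
    (∀ (K nf : ℕ) (c : Fin K → ℕ), Evt X nf c →
      (∏ j, (g (c j) : ℝ)) ^ 2 ≤ ((dd : ℝ) / nn) ^ nf * ∏ j, (vwq g A B X (c j) : ℝ)) ∧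
    ((∀ i, i < 64 → look A 24 i ≤ 4194304) → (∀ j, 64 * j < X → look B 24 j ≤ 4194304) →
      ∀ c, vwq g A B X c ≤ g c * g c + 1)

/-! ### Levels (task FL) -/

/-- integer data of a level, all lengths in units `10^-7` -/
structure Lvl where
  (τ s w V0 Bp : ℤ)
  (x G l : List ℤ)
  (k a m : ℕ)

def Lvl.X (d : Lvl) (j : ℕ) : ℤ := d.x.getD j 0
def Lvl.GG (d : Lvl) (j : ℕ) : ℤ := d.G.getD j 0
def Lvl.LL (d : Lvl) (j : ℕ) : ℤ := d.l.getD j 0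

def Lvl.ok (d : Lvl) : Bool :=
  decide (0 ≤ d.τ) && decide (d.τ ≤ 500000) && decide (0 < d.s) && decide (d.s ≤ 800000) && decide (0 < d.X 0) &&
  decide (d.X 0 ≤ d.s) && decide (d.X 0 ≤ 200000) && decide (2 * d.X 0 ≤ d.w) && (decide (d.k = 0) || decide (d.s ≤ 2 * d.X 0)) &&
  (List.range d.m).all (fun j => decide (d.X j < d.X (j + 1))) && decide (d.k ≤ d.m) && decide (d.a ≤ d.m) &&
  decide (2 * d.V0 = 2 * d.τ + d.s + 2 * d.X 0 + 400) &&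
  decide (3 * (d.w + 28 * d.τ + 14 * d.s + 2 * d.X 0 + 5000) ≤ 40000000) &&
  (List.range d.k).all (fun j => decide (d.LL j + d.X (j + 1) ≤ d.GG j) && decide (d.LL j ≤ d.LL (j + 1))) &&
  (List.range (d.m + 1)).all (fun j => decide (j < d.k) || decide (d.LL j + d.V0 ≤ d.GG j)) &&
  decide (3 * d.τ + d.s + 2000 ≤ 2 * d.GG d.k) &&
  (List.range d.m).all (fun j => decide (d.X (j + 1) ≤ d.LL j + d.s)) &&
  decide (20000000 + d.τ + 1000 ≤ 4 * (d.LL d.m + d.s) + d.GG d.m) &&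
  decide (3 * d.Bp + 13300000 + 2 * d.X 0 + 2000 ≤ 40000000 + d.s) &&
  (List.range d.a).all (fun j => decide (2 * d.X (j + 1) ≤ d.LL j + d.w)) &&
  decide (16 * d.τ + 8 * d.s + 3000 ≤ 2 * d.LL d.a + d.w) &&
  decide (12 * d.τ + 6 * d.s + 4 * d.X 0 + 10000 ≤ 6680000) && decide (16 * d.τ + 8 * d.s + 10000 ≤ 8000000)

noncomputable def sc (z : ℤ) : ℝ := (z : ℝ) / 10000000

/-- task FL: the conditions `ParG` from the integer check -/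
def S_LV : Prop := ∀ d : Lvl, d.ok = true →
  ParG (sc d.τ) (sc d.s) (sc d.w) (sc d.V0) (sc d.Bp) (fun j => sc (d.X j)) (fun j => sc (d.GG j)) (fun j => sc (d.LL j)) d.k d.a d.m

/-! ### Events and coverage (task FC) -/

/-- an event: the coordinates `< X` have the total at most `nf`; it covers the levels `l1, ..., l2 - 1`; the tilt is
given by `nn / dd` and the tables `A`, `B`; `c`, `C` are bounds for the contribution -/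
structure Ed where
  (X nf l1 l2 nn A B c C : ℕ)

instance : Inhabited Ed := ⟨⟨0, 0, 0, 0, 0, 0, 0, 0, 0⟩⟩
instance : Inhabited Lvl := ⟨⟨0, 0, 0, 0, 0, [], [], [], 0, 0, 0⟩⟩

/-- there is a chain of events from the level `cur` to a level `> i` -/
def reach (E : List Ed) (N1 i : ℕ) (x G : ℤ) : ℕ → ℕ → Bool
  | 0, _ => false
  | f + 1, cur => decide (i < cur) || E.any (fun e => decide (e.l1 = cur) && decide (cur < e.l2) &&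
      decide ((e.X : ℤ) * 10000000 ≤ x * N1) && decide (G * N1 ≤ 20000000 * ((e.nf : ℤ) + 1)) && reach E N1 i x G f e.l2)

/-- task FC -/
def S_COV : Prop := ∀ (E : List Ed) (N1 i fuel : ℕ) (x G : ℤ), reach E N1 i x G fuel 0 = true →
  ∀ (NN : ℕ) (w : ℕ → ℕ → ℝ) (De : Fin E.length → ℕ → ℝ), (∀ e n, 0 ≤ De e n) →
    (∀ a b, a ≤ b → ∀ n, n < NN → w b n ≤ w a n) →
    (∀ e : Fin E.length, ∀ n, n < NN → w (E.get e).l1 n - w (E.get e).l2 n ≤ De e n) →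
    ∃ S : Finset (Fin E.length), (∀ e ∈ S, ((E.get e).X : ℝ) ≤ sc x * N1 ∧ sc G / 2 * N1 ≤ ((E.get e).nf : ℝ) + 1) ∧
      ∀ n, n < NN → w 0 n - w (i + 1) n ≤ ∑ e ∈ S, De e n

/-! ### Meaning of the packed sums (task FX) -/

/-- task FX, first part: from `S_PACK`, `S_CORR`, `S_GE`, `S_ARR`. `y = ap - am`, `z = bb`, `XQ = y^2 .. - 2 y z .. + z^2 ..` -/
def S_X1 : Prop := ∀ (Bo Bb D Gm Hm Pm A0 A1 A2 MA Ym Zm : ℕ) (g ph h0 h1 : ℕ → ℕ),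
    (∀ n, n < 2 ^ D → g n ≤ Gm) → (∀ n, n < 2 ^ D → ph n ≤ Pm) →
    (∀ n, n < 2 ^ D → h0 n ≤ Hm) → (∀ n, n < 2 ^ D → h1 n ≤ Hm) → 1 ≤ Pm → 2 ^ D * (Gm * Pm) * Hm < 2 ^ Bb →
    genr 0 Bb (fun _ a b => cond (Nat.ble b a) 0 1) D 0 (AP Bb D g h0 (2 ^ D) (Bb * (2 ^ D - 1)))
      (AM Bb D g ph h1 (2 ^ D) (Bb * (2 ^ D - 1))) = 0 →
    genr 0 Bb (fun _ a b => cond (Nat.ble a Ym) (cond (Nat.ble b Zm) 0 1) 1) D 0 (YY Bb D g ph h0 h1 (2 ^ D) (Bb * (2 ^ D - 1)))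
      (BB Bb D g h1 (2 ^ D) (Bb * (2 ^ D - 1))) = 0 →
    1 ≤ A0 → 1 ≤ MA → A1 ^ 2 < 2 ^ Bo →
    (A0 ^ 44 + 44 * (A1 * A0 ^ 43) + 44 * (A2 * A0 ^ 43) + 1892 * (A1 ^ 2 * A0 ^ 42)) * (2 ^ D * MA) < 2 ^ Bo →
    ∀ q w : ℕ → ℕ, nrm (2 ^ D) (Ps q) ≤ A0 → nrm (2 ^ D) (Ps1 ph q) ≤ A1 → nrm (2 ^ D) (Ps2 ph q) ≤ A2 →
    (∀ n, n < 2 ^ D → w n * (Ym * Ym) ≤ MA ∧ w n * (2 * (Ym * Zm)) ≤ MA ∧ w n * (Zm * Zm) ≤ MA) →
    ∑ n ∈ range (2 ^ D), (w n : ℝ) * XQ (2 ^ D) g ph h0 h1 43 q n =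
      (LP Bo Bb (Bo * 2 ^ D) (Bo * (2 ^ D - 1)) D ph q w (YY Bb D g ph h0 h1 (2 ^ D) (Bb * (2 ^ D - 1)))
        (BB Bb D g h1 (2 ^ D) (Bb * (2 ^ D - 1))) : ℝ) -
      (LM Bo Bb (Bo * 2 ^ D) (Bo * (2 ^ D - 1)) D ph q w (YY Bb D g ph h0 h1 (2 ^ D) (Bb * (2 ^ D - 1)))
        (BB Bb D g h1 (2 ^ D) (Bb * (2 ^ D - 1))) : ℝ)

/-- task FX, second part: from `S_NORM` -/
def S_X2 : Prop := ∀ (Bo D Hm A0 A1 A2 MA : ℕ) (g ph h0 h1 : ℕ → ℕ),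
    (∀ n, n < 2 ^ D → h0 n ≤ Hm) → (∀ n, n < 2 ^ D → h1 n ≤ Hm) → 2 * (Hm * Hm) ≤ MA →
    nrm (2 ^ D) (Ps (fun i => g i * g i)) ≤ A0 → nrm (2 ^ D) (Ps1 ph (fun i => g i * g i)) ≤ A1 →
    nrm (2 ^ D) (Ps2 ph (fun i => g i * g i)) ≤ A2 → 1 ≤ A0 → 1 ≤ MA → A1 ^ 2 < 2 ^ Bo →
    (A0 ^ 44 + 44 * (A1 * A0 ^ 43) + 44 * (A2 * A0 ^ 43) + 1892 * (A1 ^ 2 * A0 ^ 42)) * (2 ^ D * MA) < 2 ^ Bo →
    ∑ n ∈ range (2 ^ D), ((h0 n : ℝ) ^ 2 * (cf (Ps (fun i => g i * g i) ^ 44) n : ℝ) +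
      (h1 n : ℝ) ^ 2 * (cf (G2 44 (Ps (fun i => g i * g i)) (Ps1 ph (fun i => g i * g i)) (Ps2 ph (fun i => g i * g i))) n : ℝ) -
      2 * ((h0 n : ℝ) * h1 n) * (cf (G1 44 (Ps (fun i => g i * g i)) (Ps1 ph (fun i => g i * g i))) n : ℝ)) =
    (NP Bo (Bo * 2 ^ D) D ph (fun i => g i * g i) h0 h1 (Bo * (2 ^ D - 1)) : ℝ) -
      (NM Bo (Bo * 2 ^ D) D ph (fun i => g i * g i) h0 h1 (Bo * (2 ^ D - 1)) : ℝ)

/-- `DHL[44,2]` with a count and a residue class -/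
def Dhl44Count : Prop := ∀ (h : Fin 44 → ℕ), Admissible h → ∀ (Q b : ℕ), Squarefree Q →
  (∀ i, (b + h i).Coprime Q) → ∀ ε : ℝ, 0 < ε → ∀ᶠ X : ℝ in Filter.atTop, X ^ (1 - ε) ≤ ((goodN h Q b X).card : ℝ)

end Pool.Agent.H529.F
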