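import Mathlib
import Pool.Agent.H529.F.FDefs

/-!
# The certificate for `DHL[44,2]`: statement of the assembly (helper529)
-/

set_option autoImplicit false

open Finset Filter

namespace Pool.Agent.H529.F

open Pool.Agent.H95R2.BG Pool.Agent.Y826.Z Pool.Agent.H529.C Pool.Agent.H529.D
open Pool.Agent.H95R2.BG.Cert (pk cf pkS nrm G1 G2 look)

/-- the grouping lemma, as a hypothesis of `S_GEN` -/
def S_COMB : Prop := ∀ {τ s w V0 Bp : ℝ} {x G l : ℕ → ℝ} {k a m : ℕ},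
    ParG τ s w V0 Bp x G l k a m → ∀ (K0 N1 : ℕ), 0 < N1 → ∀ c c' : Fin K0 → ℕ, GdG Bp x G m N1 c → GdG Bp x G m N1 c' →
    ((rad c + rad c' : ℕ) : ℝ) / N1 ≤ 2 + τ → Ev N1 c c'

/-- task FA: the assembly. Apply `S_GEN` with `K = 43`, `NN = 2 ^ D`, `Dm = GB * bs`, the levels `levels`, `pen i = bs * pb i`,
`r = GB`, `μ = muT`, `T j = bs * j`, `W i n = Wt (pb i) n`, the events `E`, `De e n = wdif (pb l1) (pb l2) n / 2^20`,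
`qe e = vwq g A B X`, `Λ e = (dd / nn) ^ nf`, where `pb i = pbl.getD i 0` (for `S_COV` use `w b n = Wt (pb (min b nl)) n`).
Final inequality: `Norm = NP - NM ≤ n0`, `∑ W0 XQ ≥ v / 2^20`, `Λ e * ∑ De XQ ≤ C_e / 2^20` by `S_X1`, `S_X2`. -/
def S_ASM : Prop := S_GEN → S_LAY → S_COMB → S_BOX → S_W → S_T → S_LV → S_COV → S_X1 → S_X2 →
  ∀ (D N1 L bs BI GB TM wm Mm wnm cap Bo Bb Gm Hm Pm A0 A1 A2 MA Ym Zm dd n0 v fuel : ℕ) (g ph h0 h1 : ℕ → ℕ)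
    (levels : List Lvl) (pbl : List ℕ) (E : List Ed),
    0 < N1 → 2 ^ D + 43 ≤ 2 * N1 → GB * bs < L → L ≤ 2 * N1 → 0 < bs → L + 1 = 43 + (BI + 1) * bs →
    (∀ c, cap ≤ c → g c = 0) → 1000 * cap ≤ 665 * N1 →
  -- levels
    (∀ d ∈ levels, d.ok = true ∧ 20000000 * ((2 ^ D + 43 : ℕ) : ℤ) ≤ (2 * d.Bp + d.GG d.m) * N1) →
    (∀ i, i < levels.length → pbl.getD i 0 ≤ pbl.getD (i + 1) 0) → pbl.getD 0 0 = 0 →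
    (∀ i, i < levels.length → 20000000 * (L : ℤ) ≤ (20000000 + (levels.getD i default).τ) * N1 + 10000000 * (bs * (pbl.getD i 0) : ℕ)) →
    2 * L ≤ 2 * N1 + bs * pbl.getD levels.length 0 → 2 ^ D + 43 + bs * pbl.getD levels.length 0 ≤ L + GB * bs + 1 →
  -- multipliers
    (∀ k, k + 1 < GB → look TM wm k ≤ look TM wm (k + 1)) → (∀ k, k < GB → look TM wm k ≤ Mm) →
    4194304 * (N1 * Mm) / (1024 * (2 * N1 + 1 - 2 ^ D - 43)) + 1 ≤ wnm →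
  -- events
    (∀ i, i < levels.length → ∀ j, j ≤ (levels.getD i default).m →
      reach E N1 i ((levels.getD i default).X j) ((levels.getD i default).GG j) fuel 0 = true) →
    (∀ e ∈ E, e.l1 ≤ e.l2 ∧ e.l2 ≤ levels.length) →
    (∀ e ∈ E, 0 < e.nn ∧ e.nn ≤ dd ∧
      (∀ i, i < 64 → 4194304 * e.nn ^ (i + 1) ≤ look e.A 24 i * dd ^ (i + 1)) ∧
      (∀ j, 64 * j < e.X → 4194304 * e.nn ^ (64 * j) ≤ look e.B 24 j * dd ^ (64 * j)) ∧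
      (∀ i, i < 64 → look e.A 24 i ≤ 4194304) ∧ (∀ j, 64 * j < e.X → look e.B 24 j ≤ 4194304)) →
  -- sizes
    nrm (2 ^ D) (Ps (fun c => g c * g c + 1)) ≤ A0 → nrm (2 ^ D) (Ps1 ph (fun c => g c * g c + 1)) ≤ A1 →
    nrm (2 ^ D) (Ps2 ph (fun c => g c * g c + 1)) ≤ A2 → 1 ≤ A0 → 1 ≤ MA → A1 ^ 2 < 2 ^ Bo →
    (A0 ^ 44 + 44 * (A1 * A0 ^ 43) + 44 * (A2 * A0 ^ 43) + 1892 * (A1 ^ 2 * A0 ^ 42)) * (2 ^ D * MA) < 2 ^ Bo →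
    (1048576 + wnm) * (Ym * Ym) ≤ MA → (1048576 + wnm) * (2 * (Ym * Zm)) ≤ MA → (1048576 + wnm) * (Zm * Zm) ≤ MA →
    2 * (Hm * Hm) ≤ MA →
    (∀ n, n < 2 ^ D → g n ≤ Gm ∧ ph n ≤ Pm ∧ h0 n ≤ Hm ∧ h1 n ≤ Hm) → 1 ≤ Pm → 2 ^ D * (Gm * Pm) * Hm < 2 ^ Bb →
    genr 0 Bb (fun _ a b => cond (Nat.ble b a) 0 1) D 0 (AP Bb D g h0 (2 ^ D) (Bb * (2 ^ D - 1)))
      (AM Bb D g ph h1 (2 ^ D) (Bb * (2 ^ D - 1))) = 0 →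
    genr 0 Bb (fun _ a b => cond (Nat.ble a Ym) (cond (Nat.ble b Zm) 0 1) 1) D 0 (YY Bb D g ph h0 h1 (2 ^ D) (Bb * (2 ^ D - 1)))
      (BB Bb D g h1 (2 ^ D) (Bb * (2 ^ D - 1))) = 0 →
  -- the kernel computations
    LM Bo Bb (Bo * 2 ^ D) (Bo * (2 ^ D - 1)) D ph (fun i => Nat.mul (g i) (g i)) (wpos TM wm bs BI GB N1 43 0)
        (YY Bb D g ph h0 h1 (2 ^ D) (Bb * (2 ^ D - 1))) (BB Bb D g h1 (2 ^ D) (Bb * (2 ^ D - 1))) +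
      LP Bo Bb (Bo * 2 ^ D) (Bo * (2 ^ D - 1)) D ph (fun i => Nat.mul (g i) (g i)) (wneg TM wm bs BI N1 43 0)
        (YY Bb D g ph h0 h1 (2 ^ D) (Bb * (2 ^ D - 1))) (BB Bb D g h1 (2 ^ D) (Bb * (2 ^ D - 1))) + v ≤
      LP Bo Bb (Bo * 2 ^ D) (Bo * (2 ^ D - 1)) D ph (fun i => Nat.mul (g i) (g i)) (wpos TM wm bs BI GB N1 43 0)
        (YY Bb D g ph h0 h1 (2 ^ D) (Bb * (2 ^ D - 1))) (BB Bb D g h1 (2 ^ D) (Bb * (2 ^ D - 1))) +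
      LM Bo Bb (Bo * 2 ^ D) (Bo * (2 ^ D - 1)) D ph (fun i => Nat.mul (g i) (g i)) (wneg TM wm bs BI N1 43 0)
        (YY Bb D g ph h0 h1 (2 ^ D) (Bb * (2 ^ D - 1))) (BB Bb D g h1 (2 ^ D) (Bb * (2 ^ D - 1))) →
    NP Bo (Bo * 2 ^ D) D ph (fun i => Nat.mul (g i) (g i)) h0 h1 (Bo * (2 ^ D - 1)) ≤
      NM Bo (Bo * 2 ^ D) D ph (fun i => Nat.mul (g i) (g i)) h0 h1 (Bo * (2 ^ D - 1)) + n0 →
    (∀ e ∈ E, LP Bo Bb (Bo * 2 ^ D) (Bo * (2 ^ D - 1)) D ph (vwq g e.A e.B e.X)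
        (wdif TM wm bs BI GB N1 43 (pbl.getD e.l1 0) (pbl.getD e.l2 0))
        (YY Bb D g ph h0 h1 (2 ^ D) (Bb * (2 ^ D - 1))) (BB Bb D g h1 (2 ^ D) (Bb * (2 ^ D - 1))) ≤
      LM Bo Bb (Bo * 2 ^ D) (Bo * (2 ^ D - 1)) D ph (vwq g e.A e.B e.X)
        (wdif TM wm bs BI GB N1 43 (pbl.getD e.l1 0) (pbl.getD e.l2 0))
        (YY Bb D g ph h0 h1 (2 ^ D) (Bb * (2 ^ D - 1))) (BB Bb D g h1 (2 ^ D) (Bb * (2 ^ D - 1))) + e.c) →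
    (∀ e ∈ E, e.c * dd ^ e.nf ≤ e.C * e.nn ^ e.nf) →
    4 * N1 * (1048576 * n0) + 44 * (E.map Ed.C).sum < 44 * v →
    Dhl44Count

end Pool.Agent.H529.F
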