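import Pool.Agent.H529.F.FDefs

/-!
# The certificate for `DHL[44,2]`: levels and coverage
-/

set_option autoImplicit false

open Finset Filter

namespace Pool.Agent.H529.F

open Pool.Agent.H95R2.BG Pool.Agent.Y826.Z Pool.Agent.H529.C Pool.Agent.H529.D

/-- task FL: the conditions `ParG` from the integer check -/
theorem flv : S_LV := by
  intro d h
  simp only [Lvl.ok, Bool.and_eq_true, decide_eq_true_eq, List.all_eq_true, List.mem_range,
    Bool.or_eq_true, and_assoc] at h
  obtain ⟨t0, t1, s0, s1, x0, x0s, x01, x0w, xk, mono, km, am, hV0, hw, hl12, hl3, hGk, hR, hRm,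
    hB, hA, hAa, hH1, hH2⟩ := h
  have c : ∀ z z' : ℤ, z ≤ z' → (z : ℝ) ≤ (z' : ℝ) := fun z z' h => by exact_mod_cast h
  refine ⟨?_, ?_, ?_, ?_, ?_, ?_, ?_, ?_, ?_, ?_, km, am, ?_, ?_, ?_, ?_, ?_, ?_, ?_, ?_, ?_, ?_,
    ?_, ?_, ?_⟩
  · have h1 := c _ _ t0
    push_cast at h1
    unfold sc
    linarith
  · have h1 := c _ _ t1
    push_cast at h1
    unfold sc
    linarith
  · have h1 : (0 : ℝ) < (d.s : ℝ) := by exact_mod_cast s0
    unfold sc
    linarith
  · have h1 := c _ _ s1
    push_cast at h1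
    unfold sc
    linarith
  · have h1 : (0 : ℝ) < (d.X 0 : ℝ) := by exact_mod_cast x0
    show 0 < sc (d.X 0)
    unfold sc
    linarith
  · have h1 := c _ _ x0s
    show sc (d.X 0) ≤ sc d.s
    unfold sc
    linarith
  · have h1 := c _ _ x01
    push_cast at h1
    show sc (d.X 0) ≤ 0.02
    unfold sc
    linarith
  · have h1 := c _ _ x0w
    push_cast at h1
    show 2 * sc (d.X 0) ≤ sc d.w
    unfold sc
    linarith
  · rcases xk with h | h
    · exact Or.inl h
    · right
      have h1 := c _ _ h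
      push_cast at h1
      show sc d.s ≤ 2 * sc (d.X 0)
      unfold sc
      linarith
  · intro j hj
    have h1 : (d.X j : ℝ) < (d.X (j + 1) : ℝ) := by exact_mod_cast mono j hj
    show sc (d.X j) < sc (d.X (j + 1))
    unfold sc
    linarith
  · have h1 : (((2 * d.V0 : ℤ)) : ℝ) = ((2 * d.τ + d.s + 2 * d.X 0 + 400 : ℤ) : ℝ) := by
      exact_mod_cast hV0
    push_cast at h1
    show sc d.V0 = sc d.τ + sc d.s / 2 + sc (d.X 0) + 0.00002
    unfold sc
    linarith
  · have h1 := c _ _ hw
    push_cast at h1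
    show sc d.w + 28 * sc d.τ + 14 * sc d.s + 2 * sc (d.X 0) + 0.0005 ≤ 4 / 3
    unfold sc
    linarith
  · intro j hj
    have h1 := c _ _ (hl12 j hj).1
    push_cast at h1
    show sc (d.LL j) + sc (d.X (j + 1)) ≤ sc (d.GG j)
    unfold sc
    linarith
  · intro j hj
    have h1 := c _ _ (hl12 j hj).2
    show sc (d.LL j) ≤ sc (d.LL (j + 1))
    unfold sc
    linarith
  · intro j hj hjm
    rcases hl3 j (by omega) with h | h
    · omega
    · have h1 := c _ _ h
      push_cast at h1
      show sc (d.LL j) + sc d.V0 ≤ sc (d.GG j)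
      unfold sc
      linarith
  · have h1 := c _ _ hGk
    push_cast at h1
    show 1.5 * sc d.τ + sc d.s / 2 + 0.0001 ≤ sc (d.GG d.k)
    unfold sc
    linarith
  · intro j hj
    have h1 := c _ _ (hR j hj)
    push_cast at h1
    show sc (d.X (j + 1)) ≤ sc (d.LL j) + sc d.s
    unfold sc
    linarith
  · have h1 := c _ _ hRm
    push_cast at h1
    show 2 + sc d.τ + 0.0001 ≤ 4 * (sc (d.LL d.m) + sc d.s) + sc (d.GG d.m)
    unfold sc
    linarith
  · have h1 := c _ _ hB
    push_cast at h1
    show 1.5 * sc d.Bp + 0.665 + sc (d.X 0) + 0.0001 ≤ 2 + sc d.s / 2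
    unfold sc
    linarith
  · intro j hj
    have h1 := c _ _ (hA j hj)
    push_cast at h1
    show 2 * sc (d.X (j + 1)) ≤ sc (d.LL j) + sc d.w
    unfold sc
    linarith
  · have h1 := c _ _ hAa
    push_cast at h1
    show 16 * sc d.τ + 8 * sc d.s + 0.0003 ≤ 2 * sc (d.LL d.a) + sc d.w
    unfold sc
    linarith
  · have h1 := c _ _ hH1
    push_cast at h1
    show 12 * sc d.τ + 6 * sc d.s + 4 * sc (d.X 0) + 0.001 ≤ 0.668
    unfold sc
    linarith
  · have h1 := c _ _ hH2
    push_cast at h1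
    unfold sc
    linarith

theorem flc_reach (E : List Ed) (N1 i : ℕ) (x G : ℤ) (NN : ℕ) (w : ℕ → ℕ → ℝ)
    (De : Fin E.length → ℕ → ℝ) (hmono : ∀ a b, a ≤ b → ∀ n, n < NN → w b n ≤ w a n)
    (hDe : ∀ e : Fin E.length, ∀ n, n < NN → w (E.get e).l1 n - w (E.get e).l2 n ≤ De e n) :
    ∀ fuel cur : ℕ, reach E N1 i x G fuel cur = true →
    ∃ S : Finset (Fin E.length), (∀ e ∈ S, cur ≤ (E.get e).l1) ∧
      (∀ e ∈ S, ((E.get e).X : ℝ) ≤ sc x * N1 ∧ sc G / 2 * N1 ≤ ((E.get e).nf : ℝ) + 1) ∧
      ∀ n, n < NN → w cur n - w (i + 1) n ≤ ∑ e ∈ S, De e n := by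
  intro fuel
  induction fuel with
  | zero =>
    intro cur h
    exact absurd h (by simp [reach])
  | succ f ih =>
    intro cur h
    simp only [reach, Bool.or_eq_true, decide_eq_true_eq, List.any_eq_true, Bool.and_eq_true] at h
    rcases h with h | ⟨e, he, ⟨⟨⟨h1, h2⟩, h3⟩, h4⟩, h5⟩
    · refine ⟨∅, fun e he => absurd he (Finset.notMem_empty e),
        fun e he => absurd he (Finset.notMem_empty e), fun n hn => ?_⟩
      rw [Finset.sum_empty]
      have := hmono (i + 1) cur (by omega) n hn
      linarith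
    · obtain ⟨idx, hidx⟩ := List.get_of_mem he
      obtain ⟨S, hS1, hS2, hS3⟩ := ih e.l2 h5
      have hni : idx ∉ S := by
        intro hmem
        have h6 := hS1 idx hmem
        rw [hidx] at h6
        omega
      refine ⟨insert idx S, ?_, ?_, ?_⟩
      · intro e' he'
        rcases Finset.mem_insert.1 he' with rfl | h6
        · rw [hidx]
          exact h1.ge
        · exact (h2.le).trans (hS1 e' h6)
      · intro e' he'
        rcases Finset.mem_insert.1 he' with rfl | h6
        · rw [hidx]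
          have h3' : ((e.X : ℝ)) * 10000000 ≤ (x : ℝ) * N1 := by exact_mod_cast h3
          have h4' : (G : ℝ) * N1 ≤ 20000000 * ((e.nf : ℝ) + 1) := by exact_mod_cast h4
          unfold sc
          constructor
          · have : (x : ℝ) / 10000000 * N1 = (x : ℝ) * N1 / 10000000 := by ring
            rw [this]
            linarith
          · have : (G : ℝ) / 10000000 / 2 * N1 = (G : ℝ) * N1 / 20000000 := by ring
            rw [this]
            linarith
        · exact hS2 e' h6
      · intro n hn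
        rw [Finset.sum_insert hni]
        have h6 := hDe idx n hn
        rw [hidx, h1] at h6
        have h7 := hS3 n hn
        linarith

/-- task FC -/
theorem fcov : S_COV := by
  intro E N1 i fuel x G h NN w De _ hmono hDe
  obtain ⟨S, -, hS2, hS3⟩ := flc_reach E N1 i x G NN w De hmono hDe fuel 0 h
  exact ⟨S, hS2, hS3⟩

end Pool.Agent.H529.F
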