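import Mathlib
import Pool.Agent.H529.F.FDefs

/-!
# Task FX of helper529's project `DHL[44,2]` (helper71): the meaning of the packed sums
-/

set_option autoImplicit false

open Finset Filter

namespace Pool.Agent.H529.F.FX

open Pool.Agent.H95R2.BG Pool.Agent.Y826.Z Pool.Agent.H529.C Pool.Agent.H529.D
open Pool.Agent.H95R2.BG.Cert (pk cf pkS nrm G1 G2)

theorem pk_zero_base (n : ℕ) (u : ℕ → ℕ) : pk 0 n u = ∑ i ∈ range n, u i := by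
  unfold pk
  exact sum_congr rfl fun i _ => by rw [zero_mul, pow_zero, mul_one]

/-- a vanishing traversal: all the values of the function are zero -/
theorem genr_zero (hA : S_ARR) {Bb D : ℕ} {f : ℕ → ℕ → ℕ → ℕ} {u v : ℕ → ℕ} (hu : ∀ n, n < 2 ^ D → u n < 2 ^ Bb)
    (hv : ∀ n, n < 2 ^ D → v n < 2 ^ Bb) (h : genr 0 Bb f D 0 (pk Bb (2 ^ D) u) (pk Bb (2 ^ D) v) = 0) :
    ∀ n, n < 2 ^ D → f n (u n) (v n) = 0 := by
  intro n hn
  rw [hA.2 0 Bb D f u v hu hv, pk_zero_base, sum_eq_zero_iff] at h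
  have h1 := h (2 ^ D - 1 - n) (mem_range.2 (by omega))
  have e : 2 ^ D - 1 - (2 ^ D - 1 - n) = n := by omega
  rw [e] at h1
  exact h1

theorem cond_le {a b Y Z : ℕ} (h : cond (Nat.ble a Y) (cond (Nat.ble b Z) 0 1) 1 = 0) : a ≤ Y ∧ b ≤ Z := by
  cases h1 : Nat.ble a Y with
  | false =>
    rw [h1] at h
    exact absurd h one_ne_zero
  | true =>
    rw [h1] at h
    cases h2 : Nat.ble b Z with
    | false =>
      rw [h2] at h
      exact absurd h one_ne_zero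
    | true => exact ⟨Nat.le_of_ble_eq_true h1, Nat.le_of_ble_eq_true h2⟩

theorem xq_eq {NN : ℕ} {g ph h0 h1 : ℕ → ℕ} {K : ℕ} {q : ℕ → ℕ} {n : ℕ} (hle : am NN g ph h1 n ≤ ap NN g h0 n) (w : ℕ) :
    (w : ℝ) * XQ NN g ph h0 h1 K q n =
      ((w * ((ap NN g h0 n - am NN g ph h1 n) * (ap NN g h0 n - am NN g ph h1 n)) * cf (Ps q ^ K) n +
        w * (bb NN g h1 n * bb NN g h1 n) * cf (G2 K (Ps q) (Ps1 ph q) (Ps2 ph q)) n : ℕ) : ℝ) -
      ((w * (2 * ((ap NN g h0 n - am NN g ph h1 n) * bb NN g h1 n)) * cf (G1 K (Ps q) (Ps1 ph q)) n : ℕ) : ℝ) := by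
  unfold XQ
  push_cast [Nat.cast_sub hle]
  ring

/-- **Task FX**, first part -/
theorem fx1 (hP : S_PACK) (hC : S_CORR) (hG : S_GE) (hA : S_ARR) : Pool.Agent.H529.F.S_X1 := by
  intro Bo Bb D Gm Hm Pm A0 A1 A2 MA Ym Zm g ph h0 h1 hg hph hh0 hh1 hPm hBb hk1 hk2 hA0 hMA hA1 hbig q w hn0 hn1 hn2 hw
  obtain ⟨c1, c2, c3, c4, c5⟩ := hC Bb D Gm Hm Pm g ph h0 h1 hg hph hh0 hh1 hPm hBb
  rw [c1, c2] at hk1
  have hle := hG Bb D _ _ (fun n hn => (c4 n hn).1) (fun n hn => (c4 n hn).2.1) hk1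
  have hY := c5 hle
  have hyb : ∀ n, n < 2 ^ D → ap (2 ^ D) g h0 n - am (2 ^ D) g ph h1 n < 2 ^ Bb := fun n hn =>
    lt_of_le_of_lt (Nat.sub_le _ _) (c4 n hn).1
  have hzb : ∀ n, n < 2 ^ D → bb (2 ^ D) g h1 n < 2 ^ Bb := fun n hn => (c4 n hn).2.2
  rw [hY, c3] at hk2
  have hyz : ∀ n, n < 2 ^ D → ap (2 ^ D) g h0 n - am (2 ^ D) g ph h1 n ≤ Ym ∧ bb (2 ^ D) g h1 n ≤ Zm := fun n hn =>
    cond_le (genr_zero hA hyb hzb hk2 n hn)
  have hp := hP Bo Bb D A0 A1 A2 MA ph q w (fun n => ap (2 ^ D) g h0 n - am (2 ^ D) g ph h1 n) (bb (2 ^ D) g h1)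
    hn0 hn1 hn2 hA0 hMA hA1 hbig hyb hzb (by
      intro n hn
      obtain ⟨e1, e2⟩ := hyz n hn
      obtain ⟨w1, w2, w3⟩ := hw n hn
      exact ⟨(Nat.mul_le_mul_left _ (Nat.mul_le_mul e1 e1)).trans w1,
        (Nat.mul_le_mul_left _ (Nat.mul_le_mul_left _ (Nat.mul_le_mul e1 e2))).trans w2,
        (Nat.mul_le_mul_left _ (Nat.mul_le_mul e2 e2)).trans w3⟩)
  rw [hY, c3, hp.1, hp.2, Nat.cast_sum, Nat.cast_sum, ← sum_sub_distrib]
  refine sum_congr rfl fun n hn => ?_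
  exact xq_eq (hle n (mem_range.1 hn)) (w n)

/-- **Task FX**, second part -/
theorem fx2 (hN : S_NORM) : Pool.Agent.H529.F.S_X2 := by
  intro Bo D Hm A0 A1 A2 MA g ph h0 h1 hh0 hh1 hMM hn0 hn1 hn2 hA0 hMA hA1 hbig
  have hp := hN Bo D A0 A1 A2 MA ph (fun i => g i * g i) h0 h1 hn0 hn1 hn2 hA0 hMA hA1 hbig (by
    intro n hn
    have e0 := hh0 n hn
    have e1 := hh1 n hn
    have e2 : Hm * Hm ≤ MA := le_trans (by omega) hMM
    exact ⟨(Nat.mul_le_mul e0 e0).trans e2, (Nat.mul_le_mul_left _ (Nat.mul_le_mul e0 e1)).trans hMM,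
      (Nat.mul_le_mul e1 e1).trans e2⟩)
  rw [hp.1, hp.2, Nat.cast_sum, Nat.cast_sum, ← sum_sub_distrib]
  refine sum_congr rfl fun n _ => ?_
  push_cast
  ring

end Pool.Agent.H529.F.FX
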